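import Pool.Agent.Lib_MP_42fe4d_lc.CL.Hard

/-!
# The separation problem for partitionable graph inequalities is NP-hard
-/

namespace Pool.Agent.Results.MP_42fe4d_lc.NPHard

open Pool.Agent.PartSep

/-- Every language `L` in `NP` reduces in polynomial time to the question whether a point violates
some partitionable graph inequality: there is a polynomial time computable function `f` such that
for every word `w` the word `f w` is the code of an instance `(G, x)` of the separation problem in
which `x` is constant `1/3` and `G` has no `K₄` (so `x` satisfies all clique inequalities of `G`),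
and `w` belongs to `L` if and only if `x` violates some partitionable graph inequality of `G`. -/
theorem result :
    ∀ L ∈ N68a2faeb.NP, ∃ f : List Bool → List Bool, N68a2faeb.IsPolyTime f ∧
      ∀ w : List Bool, ∃ s : SepInstance, f w = encodeInstance s ∧
        (∀ v, s.x v = 1 / 3) ∧ s.G.CliqueFree 4 ∧
        (∀ K : Finset (Fin s.n), s.G.IsClique (K : Set (Fin s.n)) → ∑ v ∈ K, s.x v ≤ 1) ∧
        (L w = true ↔ ∃ I, s.Violates I) :=
  np_hard.1

end Pool.Agent.Results.MP_42fe4d_lc.NPHard
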